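import Pool.Agent.H961R2.Lev.Stubs

open MeasureTheory Set Filter Topology InnerProductSpace Complex

namespace H961Lev

namespace P8

/-- the barrier -/
noncomputable def bar (k y₀ : ℝ) (z : ℂ) : ℝ := (Complex.cosh (k * (z - y₀ * I))).re

theorem bar_eq (k y₀ : ℝ) (z : ℂ) : bar k y₀ z = Real.cosh (k * z.re) * Real.cos (k * (z.im - y₀)) := by
  unfold bar
  have h : (k : ℂ) * (z - y₀ * I) = ((k * z.re : ℝ) : ℂ) + ((k * (z.im - y₀) : ℝ) : ℂ) * I := by
    apply Complex.ext <;> simp
  rw [h]
  generalize k * z.re = p
  generalize k * (z.im - y₀) = q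
  rw [Complex.cosh_add, Complex.cosh_mul_I, Complex.sinh_mul_I]
  rw [← Complex.ofReal_cosh, ← Complex.ofReal_cos, ← Complex.ofReal_sinh, ← Complex.ofReal_sin,
    ← mul_assoc, ← Complex.ofReal_mul, ← Complex.ofReal_mul, Complex.add_re, Complex.ofReal_re,
    Complex.re_ofReal_mul, Complex.I_re, mul_zero, add_zero]

theorem bar_harm (k y₀ : ℝ) (z : ℂ) : HarmonicAt (bar k y₀) z := by
  have h : AnalyticAt ℂ (fun z : ℂ => Complex.cosh (k * (z - y₀ * I))) z := by
    have hd : Differentiable ℂ (fun z : ℂ => Complex.cosh (k * (z - y₀ * I))) := by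
      intro w
      fun_prop
    exact hd.analyticAt z
  exact h.harmonicAt_re

theorem bar_cont (k y₀ : ℝ) : Continuous (bar k y₀) := by
  have : bar k y₀ = fun z : ℂ => Real.cosh (k * z.re) * Real.cos (k * (z.im - y₀)) := by
    funext z
    exact bar_eq k y₀ z
  rw [this]
  have := Complex.continuous_re
  have := Complex.continuous_im
  fun_prop

theorem cosh_large (k : ℝ) (hk : 0 < k) (ε C : ℝ) (hε : 0 < ε) :
    ∃ X₀ : ℝ, ∀ X : ℝ, X₀ ≤ X → C * (1 + X ^ 2) ≤ ε * (Real.cosh (k * X) / 2) := by
  have h1 : Tendsto (fun X : ℝ => (1 + X ^ 2) / Real.cosh (k * X)) atTop (𝓝 0) := by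
    have h2 : Tendsto (fun X : ℝ => (1 + X ^ 2) * (2 * Real.exp (-(k * X)))) atTop (𝓝 0) := by
      have h3 : Tendsto (fun X : ℝ => X ^ 2 * Real.exp (-(k * X))) atTop (𝓝 0) := by
        have h4 := (Real.tendsto_pow_mul_exp_neg_atTop_nhds_zero 2).comp
          (tendsto_id.const_mul_atTop hk)
        have h5 := h4.const_mul ((k ^ 2)⁻¹)
        rw [mul_zero] at h5
        refine h5.congr fun X => ?_
        simp only [Function.comp, id]
        field_simp
      have h6 : Tendsto (fun X : ℝ => Real.exp (-(k * X))) atTop (𝓝 0) := by
        have := Real.tendsto_exp_neg_atTop_nhds_zero.comp (tendsto_id.const_mul_atTop hk)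
        exact this
      have h7 := (h6.add h3).const_mul 2
      rw [add_zero, mul_zero] at h7
      refine h7.congr fun X => ?_
      ring
    refine squeeze_zero (fun X => ?_) (fun X => ?_) h2
    · exact div_nonneg (by positivity) (Real.cosh_pos _).le
    · rw [div_le_iff₀ (Real.cosh_pos _), mul_assoc]
      have h8 : 1 ≤ 2 * Real.exp (-(k * X)) * Real.cosh (k * X) := by
        rw [Real.cosh_eq]
        have := Real.exp_pos (-(k * X))
        have e : Real.exp (-(k * X)) * Real.exp (k * X) = 1 := by
          rw [← Real.exp_add]; simp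
        nlinarith [mul_pos this this]
      have h9 : (0 : ℝ) ≤ 1 + X ^ 2 := by positivity
      calc (1 + X ^ 2 : ℝ) = (1 + X ^ 2) * 1 := by ring
        _ ≤ (1 + X ^ 2) * (2 * Real.exp (-(k * X)) * Real.cosh (k * X)) :=
          mul_le_mul_of_nonneg_left h8 h9
  have hpos : 0 < ε / (2 * (|C| + 1)) := by positivity
  obtain ⟨X₀, hX⟩ := Filter.eventually_atTop.1 (h1.eventually (gt_mem_nhds hpos))
  refine ⟨X₀, fun X hXX => ?_⟩
  have h := hX X hXX
  rw [div_lt_iff₀ (Real.cosh_pos _)] at h
  have hc := Real.cosh_pos (k * X)
  have hC : C ≤ |C| := le_abs_self C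
  have hC0 : 0 ≤ |C| := abs_nonneg C
  have h9 : (0 : ℝ) ≤ 1 + X ^ 2 := by positivity
  calc C * (1 + X ^ 2) ≤ (|C| + 1) * (1 + X ^ 2) := by nlinarith
    _ ≤ (|C| + 1) * (ε / (2 * (|C| + 1)) * Real.cosh (k * X)) := by
        exact mul_le_mul_of_nonneg_left h.le (by positivity)
    _ = ε * (Real.cosh (k * X) / 2) := by field_simp

end P8

open P8

theorem T_P8 : S_H1 → S_P5 → S_P6 → S_P7 → S_P8 := by
  intro hH1 hP5 hP6 hP7 E U hE hU x h hh
  -- basic facts
  have hU0 : ∀ z, 0 ≤ U z := by
    intro z
    by_cases hz : z ∈ ((fun x : ℝ => (x : ℂ)) '' E)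
    · obtain ⟨t, ht, rfl⟩ := hz
      exact (hU.zero t ht).ge
    · exact (hU.pos z hz).le
  have hharm : ∀ z, 0 < U z → HarmonicAt U z := by
    intro z hz
    refine hU.harm z ?_
    rintro ⟨t, ht, rfl⟩
    have := hU.zero t ht
    simp only at hz
    linarith
  have hup : ∀ z : ℂ, 0 < z.im → HarmonicAt U z := by
    intro z hz
    refine hU.harm z ?_
    rintro ⟨t, ht, rfl⟩
    simp at hz
  have hPH : PosHalf U := ⟨hU.cont.continuousOn, fun z hz => hup z hz, fun z _ => hU0 z⟩
  have hP6' := (hP6 U 1 hPH hU.norm zero_le_one).1
  set g : ℝ := h / 2 with hg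
  have hg0 : 0 < g := by positivity
  -- main claim
  have key : ∀ a : ℝ, 0 < a → a < 1 → U (x : ℂ) ≤ (1 + a) * U (x + h * I) := by
    intro a ha ha1
    set Y : ℝ := 2 * g / a with hY
    have hY0 : 0 < Y := by positivity
    have hYa : a * Y = 2 * g := by rw [hY]; field_simp
    have hgY : 2 * g < Y := by nlinarith
    obtain ⟨C, hC⟩ := hP7 E U hE hU Y hY0
    set k : ℝ := Real.pi / (3 * (Y + g)) with hk
    have hk0 : 0 < k := by positivity
    set y₀ : ℝ := (Y - g) / 2 with hy₀
    have hcos : ∀ y : ℝ, -g ≤ y → y ≤ Y → 1 / 2 ≤ Real.cos (k * (y - y₀)) := by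
      intro y h1 h2
      have h3 : |k * (y - y₀)| ≤ Real.pi / 6 := by
        rw [abs_mul, abs_of_pos hk0]
        have h4 : |y - y₀| ≤ (Y + g) / 2 := by
          rw [abs_le]; constructor <;> (rw [hy₀]; linarith)
        calc k * |y - y₀| ≤ k * ((Y + g) / 2) := mul_le_mul_of_nonneg_left h4 hk0.le
          _ = Real.pi / 6 := by rw [hk]; field_simp; ring
      rw [← Real.cos_abs]
      have h5 : Real.cos (Real.pi / 6) ≤ Real.cos |k * (y - y₀)| :=
        Real.cos_le_cos_of_nonneg_of_le_pi (abs_nonneg _) (by linarith [Real.pi_pos]) h3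
      have h6 : (1 : ℝ) / 2 ≤ Real.cos (Real.pi / 6) := by
        rw [Real.cos_pi_div_six]
        have : (1 : ℝ) ≤ Real.sqrt 3 := by
          rw [show (1 : ℝ) = Real.sqrt 1 by simp]
          exact Real.sqrt_le_sqrt (by norm_num)
        linarith
      linarith
    let W : ℂ → ℝ := fun z => (1 + a) * U (z + h * I) - U z
    have hWc : Continuous W := by
      have := hU.cont
      fun_prop
    have hmain : ∀ ε : ℝ, 0 < ε → -(ε * bar k y₀ x) ≤ W x := by
      intro ε hε
      obtain ⟨X₀, hX₀⟩ := cosh_large k hk0 ε C hε
      set X : ℝ := max (max X₀ (|x| + 1)) 1 with hX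
      have hX1 : X₀ ≤ X := (le_max_left _ _).trans (le_max_left _ _)
      have hX2 : |x| + 1 ≤ X := (le_max_right _ _).trans (le_max_left _ _)
      have hX3 : (1 : ℝ) ≤ X := le_max_right _ _
      have hXl := hX₀ X hX1
      let w : ℂ → ℝ := fun z => -W z - ε * bar k y₀ z
      have hw := hP5 (Icc (-X) X ×ℂ Icc (-g) Y) (Ioo (-X) X ×ℂ Ioo (-g) Y) w
        (isCompact_Icc.reProdIm isCompact_Icc) (isOpen_Ioo.reProdIm isOpen_Ioo)
        (fun z hz => ⟨Ioo_subset_Icc_self hz.1, Ioo_subset_Icc_self hz.2⟩)
        ((hWc.neg.sub ((bar_cont k y₀).const_mul ε |>.congr (fun _ => rfl))).continuousOn)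
        (by
          intro z hz hwz
          have hzim : -g < z.im := hz.2.1
          have hzim2 : z.im < Y := hz.2.2
          have hb : 0 ≤ bar k y₀ z := by
            rw [bar_eq]
            have := hcos z.im hzim.le hzim2.le
            exact mul_nonneg (Real.cosh_pos _).le (by linarith)
          have hWz : W z < 0 := by
            have : 0 < -W z - ε * bar k y₀ z := hwz
            nlinarith
          have hUz : 0 < U z := by
            have h1 : (1 + a) * U (z + h * I) - U z < 0 := hWz
            have h2 := hU0 (z + h * I)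
            nlinarith
          have e1 : HarmonicAt U z := hharm z hUz
          have e2 : HarmonicAt (fun w : ℂ => U (w + h * I)) z := by
            refine hH1.1 U (fun w : ℂ => w + h * I) z ?_ ?_
            · have hd : Differentiable ℂ (fun w : ℂ => w + h * I) := by
                intro w
                fun_prop
              exact hd.analyticAt z
            · apply hup
              simp
              linarith
          have e3 := bar_harm k y₀ z
          have e4 : w = -((1 + a) • (fun w : ℂ => U (w + h * I)) - U) - ε • bar k y₀ := by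
            funext v
            simp [w, W]
          rw [e4]
          exact ((e2.const_smul.sub e1).neg).sub e3.const_smul)
        (by
          intro z hz
          obtain ⟨⟨⟨hx1, hx2⟩, hy1, hy2⟩, hzn⟩ := hz
          have hb : Real.cosh (k * z.re) / 2 ≤ bar k y₀ z := by
            rw [bar_eq]
            have := hcos z.im hy1 hy2
            have hc := Real.cosh_pos (k * z.re)
            nlinarith
          have hb0 : 0 ≤ bar k y₀ z := le_trans (by have := Real.cosh_pos (k * z.re); positivity) hb
          show -W z - ε * bar k y₀ z ≤ 0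
          by_cases c1 : z.im = -g
          · have hW : 0 ≤ W z := by
              have e1 : U (z + h * I) = U z := by
                rw [← hU.symm z]
                congr 1
                apply Complex.ext
                · simp
                · simp [c1]
                  linarith
              show 0 ≤ (1 + a) * U (z + h * I) - U z
              rw [e1]
              have := hU0 z
              nlinarith
            nlinarith
          by_cases c2 : z.im = Y
          · have hW : 0 ≤ W z := by
              have e1 := (hP6' z.re Y (2 * g) hY0 (by linarith)).1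
              have e2 : ((z.re : ℂ) + Y * I) = z := by
                apply Complex.ext <;> simp [c2]
              have e3 : ((z.re : ℂ) + ((Y + 2 * g : ℝ) : ℂ) * I) = z + h * I := by
                apply Complex.ext
                · simp
                · simp [c2]
                  linarith
              rw [e2, e3] at e1
              show 0 ≤ (1 + a) * U (z + h * I) - U z
              have hs : 0 < Y + 2 * g := by linarith
              have e4 : (1 + a) * (Y / (Y + 2 * g)) = 1 := by
                rw [mul_div_assoc', div_eq_one_iff_eq hs.ne']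
                linarith
              have e5 : (1 + a) * (Y / (Y + 2 * g) * U z) = U z := by
                rw [← mul_assoc, e4, one_mul]
              nlinarith
            nlinarith
          · have hre : |z.re| = X := by
              by_contra hne
              apply hzn
              refine ⟨?_, ?_⟩
              · have : |z.re| < X := lt_of_le_of_ne (abs_le.2 ⟨hx1, hx2⟩) hne
                exact ⟨(abs_lt.1 this).1, (abs_lt.1 this).2⟩
              · exact ⟨lt_of_le_of_ne hy1 (Ne.symm c1), lt_of_le_of_ne hy2 c2⟩
            have h1 : U z ≤ C * (1 + z.re ^ 2) := by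
              apply hC
              rw [abs_le]
              constructor <;> linarith
            have h2 : z.re ^ 2 = X ^ 2 := by rw [← sq_abs, hre]
            have h3 : Real.cosh (k * z.re) = Real.cosh (k * X) := by
              rw [← Real.cosh_abs, abs_mul, abs_of_pos hk0, hre]
            rw [h3] at hb
            rw [h2] at h1
            have h4 : ε * (Real.cosh (k * X) / 2) ≤ ε * bar k y₀ z :=
              mul_le_mul_of_nonneg_left hb hε.le
            have h5 : -W z ≤ U z := by
              show -((1 + a) * U (z + h * I) - U z) ≤ U z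
              have := hU0 (z + h * I)
              nlinarith
            linarith)
      have := hw (x : ℂ) (by
        refine ⟨?_, ?_⟩
        · have := abs_le.1 (show |x| ≤ X by linarith)
          exact ⟨by simpa using this.1, by simpa using this.2⟩
        · constructor
          · simp; linarith
          · simp; linarith)
      have h9 : -W (x : ℂ) - ε * bar k y₀ (x : ℂ) ≤ 0 := this
      linarith
    have hfin : 0 ≤ W (x : ℂ) := by
      by_contra hneg
      rw [not_le] at hneg
      have hb0 : 0 < bar k y₀ (x : ℂ) := by
        rw [bar_eq]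
        have := hcos 0 (by linarith) hY0.le
        have hc := Real.cosh_pos (k * x)
        simp only [ofReal_re, ofReal_im]
        exact mul_pos hc (by linarith)
      have := hmain (-W x / (2 * bar k y₀ x)) (by
        apply div_pos
        · linarith
        · linarith)
      have e : -W (x : ℂ) / (2 * bar k y₀ x) * bar k y₀ x = -W (x : ℂ) / 2 := by
        field_simp
      rw [e] at this
      linarith
    have : 0 ≤ (1 + a) * U (x + h * I) - U x := hfin
    linarith
  -- a → 0
  refine le_of_forall_pos_le_add fun e he => ?_
  have hM := hU0 (x + h * I)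
  set a : ℝ := min (1 / 2) (e / (U (x + h * I) + 1)) with ha
  have ha0 : 0 < a := lt_min (by norm_num) (by positivity)
  have ha1 : a < 1 := lt_of_le_of_lt (min_le_left _ _) (by norm_num)
  have h1 := key a ha0 ha1
  have h2 : a * U (x + h * I) ≤ e := by
    have h3 : a ≤ e / (U (x + h * I) + 1) := min_le_right _ _
    rw [le_div_iff₀ (by linarith)] at h3
    nlinarith
  linarith

end H961Lev
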